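import Pool.Agent.H73.KG.Stmts2
import Pool.Agent.H33.KG.BAS

/-!
# Project KG, module THC: the variance of Lipschitz functions, covariance at most one
-/

set_option autoImplicit false
set_option linter.unusedSectionVars false

open MeasureTheory Set Filter Topology
open scoped ContDiff

namespace Pool.Agent.H73.KG

open Pool.Agent.H84 Pool.Agent.H84.Sym Pool.Agent.H84.Sym.P2x Pool.Agent.H19.KL

section

variable {E : Type} [NormedAddCommGroup E] [InnerProductSpace ℝ E]
    [FiniteDimensional ℝ E] [MeasurableSpace E] [BorelSpace E]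

theorem THC_gc {f : E → ℝ} (hf : ContDiff ℝ 1 f) (h1 : ∀ x, ‖fderiv ℝ f x‖ ≤ 1) : GC f := by
  refine ⟨hf.continuous, ?_⟩
  have hl : ∀ x, |f x| ≤ |(|f 0| + ‖x‖)| := by
    intro x
    have h2 : ‖f x - f 0‖ ≤ 1 * ‖x - 0‖ :=
      Convex.norm_image_sub_le_of_norm_fderiv_le (𝕜 := ℝ) (s := univ)
        (fun y _ => (hf.differentiable (by norm_num)).differentiableAt) (fun y _ => h1 y)
        convex_univ (mem_univ _) (mem_univ _)
    rw [Real.norm_eq_abs, sub_zero, one_mul] at h2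
    have h3 : |f x| ≤ |f x - f 0| + |f 0| := by
      have := abs_add_le (f x - f 0) (f 0)
      simpa using this
    rw [abs_of_nonneg (by positivity : 0 ≤ |f 0| + ‖x‖)]
    linarith
  exact Gr.of_le (Gr.add (Gr.of_bdd (H := E) (F := fun _ => |f 0|) (A := |f 0|)
    fun _ => by simp) Gr.nrm) hl

theorem THC_rp {a : ℝ} (ha : 1 ≤ a) : a ^ ((3:ℝ) / 2) = a * Real.sqrt a := by
  have h0 : 0 < a := by linarith
  rw [Real.sqrt_eq_rpow, show ((3:ℝ) / 2) = 1 + 1 / 2 by norm_num, Real.rpow_add h0, Real.rpow_one]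

theorem THC_gcr {F : E → ℝ} (hF : GC F) (h1 : ∀ x, 1 ≤ F x) :
    GC (fun x => F x ^ ((3:ℝ) / 2)) := by
  refine ⟨hF.1.rpow_const fun x => Or.inr (by norm_num), ?_⟩
  refine Gr.of_le (Gr.mul hF.2 hF.2) fun x => ?_
  have h0 : 0 ≤ F x := by linarith [h1 x]
  rw [THC_rp (h1 x), abs_of_nonneg (by positivity), abs_of_nonneg (by positivity)]
  refine mul_le_mul_of_nonneg_left ?_ h0
  rw [Real.sqrt_le_left h0]
  nlinarith [h1 x]

/-- the variance of a Lipschitz function -/
theorem THC_var (h1 : BASStmt E) (h2 : IMPStmt E) {V : E → ℝ} {τ s a : ℝ} (hV : PP V τ)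
    (hs : 0 < s) (hsτ : s ≤ τ) (ha : 1 ≤ a) (hc : CovLe V a) {f : E → ℝ} (hf : ContDiff ℝ 1 f)
    (hf1 : ∀ x, ‖fderiv ℝ f x‖ ≤ 1) : cv V f f ≤ Real.sqrt (a / s) := by
  have hV' : PP V s := h1.1 V τ s hV hs hsτ
  have hG := h2 V s a hV' (by linarith) hc
  have hv := h1.2.2.1 V s hV' f hf (THC_gc hf hf1).2
    (Gr.of_bdd (A := 1) fun x => by rw [abs_of_nonneg (norm_nonneg _)]; exact hf1 x) _ hG
  have hp : IsProbabilityMeasure (mu V) := hV.2
  have hi : ∫ x, ‖fderiv ℝ f x‖ ^ 2 ∂(mu V) ≤ 1 := by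
    calc ∫ x, ‖fderiv ℝ f x‖ ^ 2 ∂(mu V) ≤ ∫ _, (1:ℝ) ∂(mu V) := by
          refine integral_mono_of_nonneg (Eventually.of_forall fun x => by positivity)
            (integrable_const _) (Eventually.of_forall fun x => ?_)
          have := hf1 x
          have h0 := norm_nonneg (fderiv ℝ f x)
          change ‖fderiv ℝ f x‖ ^ 2 ≤ 1
          nlinarith
      _ = 1 := by simp
  calc cv V f f ≤ Real.sqrt (a / s) * ∫ x, ‖fderiv ℝ f x‖ ^ 2 ∂(mu V) := hv
    _ ≤ Real.sqrt (a / s) * 1 := mul_le_mul_of_nonneg_left hi (Real.sqrt_nonneg _)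
    _ = _ := mul_one _

/-- the covariance of a Lipschitz function with the coordinates -/
theorem THC_vec (h1 : BASStmt E) {V : E → ℝ} {τ a K : ℝ} (hV : PP V τ)
    (ha : 1 ≤ a) (hc : CovLe V a) {f : E → ℝ} (hf : GC f) (hK : cv V f f ≤ K)
    {ι : Type} [Fintype ι] (b : OrthonormalBasis ι ℝ E) :
    ∑ i, cv V f (li (b i)) * cv V f (li (b i)) ≤ a * K := by
  classical
  obtain ⟨C, hP⟩ := hV.1
  set c : ι → ℝ := fun i => cv V f (li (b i)) with hcd
  set w : E := ∑ i, c i • b i with hw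
  have hl : ∀ s : Finset ι, li (∑ i ∈ s, c i • b i) = fun z => ∑ i ∈ s, c i * li (b i) z := by
    intro s
    funext z
    unfold li
    rw [sum_inner]
    exact Finset.sum_congr rfl fun i _ => by rw [real_inner_smul_left]
  have hG : ∀ s : Finset ι, GC (fun z => ∑ i ∈ s, c i * li (b i) z) := fun s =>
    GC.sum fun i => (GC.const (c i)).mul (BAS_li (b i))
  have hsum : ∀ (s : Finset ι) (h : E → ℝ), GC h →
      cv V (fun z => ∑ i ∈ s, c i * li (b i) z) h = ∑ i ∈ s, c i * cv V (li (b i)) h := by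
    intro s h hh
    induction s using Finset.induction_on with
    | empty =>
      simp only [Finset.sum_empty]
      unfold cv
      simp
    | insert a s ha ih =>
      simp only [Finset.sum_insert ha]
      rw [BAS_add hP ((GC.const (c a)).mul (BAS_li (b a))) (hG s) hh, BAS_smul, ih]
  have e1 : cv V f (li w) = ∑ i, c i * c i := by
    rw [BAS_symm, hw, hl, hsum _ _ hf]
    exact Finset.sum_congr rfl fun i _ => by rw [BAS_symm V (li (b i))]
  have e2 : ‖w‖ ^ 2 = ∑ i, c i * c i := BAS_norm b c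
  have h3 := (h1.2.2.2.1 V τ hV f (li w) hf (BAS_li w)).1
  have h3' := (h1.2.2.2.1 V τ hV f (li w) hf (BAS_li w)).2.1
  have h4 := hc w
  rw [e2] at h4
  rw [e1] at h3
  set S := ∑ i, c i * c i with hS
  have hS0 : 0 ≤ S := Finset.sum_nonneg fun i _ => mul_self_nonneg _
  change S ≤ a * K
  have h5 : S ^ 2 ≤ cv V f f * (a * S) := h3.trans (mul_le_mul_of_nonneg_left h4 h3')
  have h6 : S ^ 2 ≤ K * (a * S) := h5.trans (mul_le_mul_of_nonneg_right hK (by positivity))
  rcases hS0.eq_or_lt with h0 | h0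
  · rw [← h0]
    have : 0 ≤ K := h3'.trans hK
    positivity
  · have : S * S ≤ (a * K) * S := by nlinarith
    exact le_of_mul_le_mul_right this h0

end

theorem THC_L (n : ℕ) : 1 ≤ L1 n * L2 n := by
  have h1 : 2 ≤ L1 n := by
    unfold L1
    rw [Real.le_log_iff_exp_le (by positivity)]
    have h := Real.exp_one_lt_d9
    have h2 : Real.exp 2 = Real.exp 1 * Real.exp 1 := by
      rw [← Real.exp_add]
      norm_num
    have h0 := Real.exp_pos 1
    have : (0:ℝ) ≤ n := Nat.cast_nonneg n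
    nlinarith
  have h2 : 1 / 2 ≤ L2 n := by
    unfold L2
    have h3 := Real.log_two_gt_d9
    have h4 := Real.log_le_log (by norm_num) h1
    linarith
  nlinarith

theorem thc_thm
    (hBAS : ∀ (E : Type) [NormedAddCommGroup E] [InnerProductSpace ℝ E] [FiniteDimensional ℝ E]
      [MeasurableSpace E] [BorelSpace E], BASStmt E)
    (hIMP : ∀ (E : Type) [NormedAddCommGroup E] [InnerProductSpace ℝ E] [FiniteDimensional ℝ E]
      [MeasurableSpace E] [BorelSpace E], IMPStmt E)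
    (hPWB : ∀ (E : Type) [NormedAddCommGroup E] [InnerProductSpace ℝ E] [FiniteDimensional ℝ E]
      [MeasurableSpace E] [BorelSpace E], PWBStmt E)
    (hRGC : ∀ (E : Type) [NormedAddCommGroup E] [InnerProductSpace ℝ E] [FiniteDimensional ℝ E]
      [MeasurableSpace E] [BorelSpace E], RGCStmt E)
    (hBAY : ∀ (E : Type) [NormedAddCommGroup E] [InnerProductSpace ℝ E] [FiniteDimensional ℝ E]
      [MeasurableSpace E] [BorelSpace E], BAYStmt E)
    (hCVR : ∀ (E : Type) [NormedAddCommGroup E] [InnerProductSpace ℝ E] [FiniteDimensional ℝ E]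
      [MeasurableSpace E] [BorelSpace E], CVRStmt E)
    (hCOV : ∀ (E : Type) [NormedAddCommGroup E] [InnerProductSpace ℝ E] [FiniteDimensional ℝ E]
      [MeasurableSpace E] [BorelSpace E], COVStmt E)
    (hFPB : ∀ (E : Type) [NormedAddCommGroup E] [InnerProductSpace ℝ E] [FiniteDimensional ℝ E]
      [MeasurableSpace E] [BorelSpace E], FPBStmt E)
    (hFPI : FPIStmt) (hTHB : THBStmt) : THCStmt := by
  obtain ⟨c, hc0, hc2, hTHB⟩ := hTHB
  refine ⟨1 + 30 / Real.sqrt c, by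
    have : 0 ≤ 30 / Real.sqrt c := by positivity
    linarith, ?_⟩
  intro E _ _ _ _ _ U t hU hcov f hf hf1
  set N := Module.finrank ℝ E with hN
  have hL := THC_L N
  have hL0 : 0 < L1 N * L2 N := by linarith
  set T := c / (L1 N * L2 N) with hT
  have hT0 : 0 < T := by positivity
  have hT1 : T ≤ 1 := by
    rw [hT, div_le_one hL0]
    linarith
  have hb := stdOrthonormalBasis ℝ E
  have hGf : GC f := THC_gc hf hf1
  have hPU := hU
  obtain ⟨⟨C, hP⟩, hpr⟩ := hU
  have ht0 : 0 < t := hP.pos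
  -- the main estimate at one time
  have key : ∀ s, 0 < s → s ≤ T → EX U s (fun θ => cv (pw U s θ) f f) ≤ 10 / Real.sqrt s ∧
      EX U s (fun θ => ∑ i, cv (pw U s θ) f (li (hb i)) * cv (pw U s θ) f (li (hb i))) ≤
        10 / Real.sqrt s := by
    intro s hs hsT
    obtain ⟨p, hp1, hp⟩ := hTHB E U t hPU hcov _ hb s hs hsT
    have hss : 0 < Real.sqrt s := Real.sqrt_pos.2 hs
    have hB := hBAY E U t hPU s hs.le
    set a : E → ℝ := fun θ => 3 + (4 / 3) ^ p * FP p (cm hb (pw U s θ)) with had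
    have hpsd : ∀ θ, (cm hb (pw U s θ)).PosSemidef := fun θ =>
      ((hBAS E).2.2.2.2.2.1 _ _ ((hPWB E U t hPU).1 s θ hs.le) _ hb).1
    have ha1 : ∀ θ, 1 ≤ a θ := by
      intro θ
      have := (hFPI _ _ (hpsd θ) p hp1).1
      have h2 : 0 ≤ (4 / 3 : ℝ) ^ p * FP p (cm hb (pw U s θ)) := by positivity
      simp only [had]
      linarith
    have hac : ∀ θ, CovLe (pw U s θ) (a θ) := by
      intro θ
      exact (hBAS E).2.2.2.2.2.2 _ _ ((hPWB E U t hPU).1 s θ hs.le) _ hb _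
        (hFPI _ _ (hpsd θ) p hp1).2.2.2.2
    have hRG := (hRGC E).2.2.2.2.2.1
    have hFR := (hFPB E U t hPU _ hb p hp1).1
    have hga : GC a := (GC.const 3).add ((GC.const _).mul (hRG _ hFR s hs).1)
    have hgr : GC (fun θ => a θ ^ ((3:ℝ) / 2)) := THC_gcr hga ha1
    have hgm : GC (fun θ => (1 / Real.sqrt s) * a θ ^ ((3:ℝ) / 2)) := (GC.const _).mul hgr
    have hg1 : GC (fun θ => cv (pw U s θ) f f) := (hRG _ (hCVR E U t hPU f f hGf hGf) s hs).1
    have hg2 : GC (fun θ => ∑ i, cv (pw U s θ) f (li (hb i)) * cv (pw U s θ) f (li (hb i))) := by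
      refine GC.sum fun i => ?_
      have := (hRG _ (hCVR E U t hPU f _ hGf (BAS_li (hb i))) s hs).1
      exact this.mul this
    have hrp : ∀ θ, a θ ^ ((3:ℝ) / 2) = a θ * Real.sqrt (a θ) := fun θ => THC_rp (ha1 θ)
    have hv : ∀ θ, cv (pw U s θ) f f ≤ Real.sqrt (a θ / s) := fun θ =>
      THC_var (hBAS E) (hIMP E) ((hPWB E U t hPU).1 s θ hs.le) hs (by linarith) (ha1 θ) (hac θ)
        hf hf1
    have hsq : ∀ θ, Real.sqrt (a θ / s) = (1 / Real.sqrt s) * Real.sqrt (a θ) := by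
      intro θ
      rw [Real.sqrt_div' _ hs.le]
      ring
    have hend : EX U s (fun θ => (1 / Real.sqrt s) * a θ ^ ((3:ℝ) / 2)) ≤ 10 / Real.sqrt s := by
      rw [hB.2.2.1]
      calc 1 / Real.sqrt s * EX U s (fun θ => a θ ^ ((3:ℝ) / 2)) ≤ 1 / Real.sqrt s * 10 :=
            mul_le_mul_of_nonneg_left hp (by positivity)
        _ = _ := by ring
    constructor
    · refine (hB.2.2.2.2.1 _ _ hg1 hgm fun θ => ?_).trans hend
      refine (hv θ).trans ?_
      rw [hsq, hrp]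
      refine mul_le_mul_of_nonneg_left ?_ (by positivity)
      exact le_mul_of_one_le_left (Real.sqrt_nonneg _) (ha1 θ)
    · refine (hB.2.2.2.2.1 _ _ hg2 hgm fun θ => ?_).trans hend
      refine (THC_vec (hBAS E) ((hPWB E U t hPU).1 s θ hs.le) (ha1 θ) (hac θ) hGf (hv θ) hb).trans
        (le_of_eq ?_)
      rw [hsq, hrp]
      ring
  obtain ⟨hint, heq⟩ := hCOV E U t hPU f f hGf hGf _ hb T hT0
  rw [heq]
  have hrint : IntervalIntegrable (fun s : ℝ => 10 * s ^ (-(1:ℝ) / 2)) volume 0 T :=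
    (intervalIntegral.intervalIntegrable_rpow' (by norm_num)).const_mul 10
  have hI : (∫ s in (0:ℝ)..T, EX U s (fun θ => ∑ i, cv (pw U s θ) f (li (hb i)) *
      cv (pw U s θ) f (li (hb i)))) ≤ 20 * Real.sqrt T := by
    calc (∫ s in (0:ℝ)..T, EX U s (fun θ => ∑ i, cv (pw U s θ) f (li (hb i)) *
      cv (pw U s θ) f (li (hb i)))) ≤ ∫ s in (0:ℝ)..T, 10 * s ^ (-(1:ℝ) / 2) := by
          refine intervalIntegral.integral_mono_on_of_le_Ioo hT0.le hint hrint fun s hs => ?_
          refine ((key s hs.1 hs.2.le).2).trans (le_of_eq ?_)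
          rw [Real.sqrt_eq_rpow, show (-(1:ℝ) / 2) = -(1 / 2) by norm_num,
            Real.rpow_neg hs.1.le, div_eq_mul_inv]
      _ = 20 * Real.sqrt T := by
          rw [intervalIntegral.integral_const_mul, integral_rpow (Or.inl (by norm_num))]
          rw [show (-(1:ℝ) / 2 + 1) = 1 / 2 by norm_num, Real.zero_rpow (by norm_num),
            Real.sqrt_eq_rpow]
          ring
  have hend := (key T hT0 le_rfl).1
  have hsT : 0 < Real.sqrt T := Real.sqrt_pos.2 hT0
  have h5 : 20 * Real.sqrt T ≤ 20 / Real.sqrt T := by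
    rw [le_div_iff₀ hsT, mul_assoc, Real.mul_self_sqrt hT0.le]
    linarith
  have h6 : 30 / Real.sqrt T = 30 / Real.sqrt c * Real.sqrt (L1 N * L2 N) := by
    rw [hT, Real.sqrt_div' _ hL0.le]
    have : 0 < Real.sqrt (L1 N * L2 N) := Real.sqrt_pos.2 hL0
    field_simp
  have h7 : 10 / Real.sqrt T + 20 / Real.sqrt T = 30 / Real.sqrt T := by ring
  have h8 : 0 ≤ Real.sqrt (L1 N * L2 N) := Real.sqrt_nonneg _
  calc _ ≤ 10 / Real.sqrt T + 20 * Real.sqrt T := add_le_add hend hI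
    _ ≤ 10 / Real.sqrt T + 20 / Real.sqrt T := by linarith
    _ = 30 / Real.sqrt c * Real.sqrt (L1 N * L2 N) := by rw [h7, h6]
    _ ≤ _ := by
      rw [add_mul]
      linarith

end Pool.Agent.H73.KG
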